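import Mathlib

/-!
# MP_97284c_gt, part U: Lemma W (discrete Wirtinger inequality with exact remainder)
-/

namespace MP97284cU

open Finset

/-- planar cross product -/
def cr (a b : ℂ) : ℝ := a.re * b.im - a.im * b.re

/-- real inner product -/
def dt (a b : ℂ) : ℝ := a.re * b.re + a.im * b.im

theorem cr_add_left (a b c : ℂ) : cr (a + b) c = cr a c + cr b c := by
  simp [cr]; ring

theorem cr_add_right (a b c : ℂ) : cr a (b + c) = cr a b + cr a c := by
  simp [cr]; ring

theorem cr_smul_left (x : ℝ) (a b : ℂ) : cr ((x : ℂ) * a) b = x * cr a b := by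
  simp [cr]; ring

theorem cr_smul_right (x : ℝ) (a b : ℂ) : cr a ((x : ℂ) * b) = x * cr a b := by
  simp [cr]; ring

theorem cr_self (a : ℂ) : cr a a = 0 := by
  simp [cr]; ring

theorem cr_comm (a b : ℂ) : cr a b = - cr b a := by
  simp [cr]; ring

theorem cr_zero_left (a : ℂ) : cr 0 a = 0 := by simp [cr]
theorem cr_zero_right (a : ℂ) : cr a 0 = 0 := by simp [cr]

/-- Plücker relation in the plane. -/
theorem cr_pluecker (r a b c : ℂ) :
    cr r a * cr b c + cr a c * cr b r = cr r c * cr b a := by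
  simp [cr]; ring

/-- Telescoping form of Lemma W: partial sums. -/
theorem lemW_partial (N : ℕ) (u : ℕ → ℂ) (J : ℕ → ℝ) (r : ℕ → ℂ)
    (hpos : ∀ i j, i < j → j < N → 0 < cr (u i) (u j))
    (h0 : r 0 = 0) (hr : ∀ k, k < N → r (k + 1) = r k + (J k : ℂ) * u k) :
    ∀ K, 2 ≤ K → K ≤ N →
      ∑ k ∈ range K, cr (r k) (r (k + 1)) =
        cr (u 0) (r K) * (cr (r K) (u (K - 1)) / cr (u 0) (u (K - 1))) -
        ∑ k ∈ Ico 2 K, cr (u (k - 1)) (u k) / (cr (u 0) (u (k - 1)) * cr (u 0) (u k)) *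
          (cr (u 0) (r k)) ^ 2 := by
  intro K hK
  induction K, hK using Nat.le_induction with
  | base =>
    intro hN
    have h1 : r 1 = (J 0 : ℂ) * u 0 := by
      have := hr 0 (by omega)
      simpa [h0] using this
    have h2 : r 2 = (J 0 : ℂ) * u 0 + (J 1 : ℂ) * u 1 := by
      have := hr 1 (by omega)
      rw [h1] at this
      simpa using this
    have hp : 0 < cr (u 0) (u 1) := hpos 0 1 (by omega) (by omega)
    simp only [Finset.sum_range_succ, Finset.sum_range_zero, Ico_self, Finset.sum_empty,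
      Nat.reduceAdd, zero_add, Nat.reduceSub]
    rw [h0, cr_zero_left, h1, h2]
    simp only [cr_add_right, cr_add_left, cr_smul_left, cr_smul_right, cr_self]
    field_simp
    ring
  | succ K hK ih =>
    intro hN
    have ihK := ih (by omega)
    rw [Finset.sum_range_succ, ihK]
    rw [Finset.sum_Ico_succ_top hK]
    have hr1 := hr K (by omega)
    have hp1 : 0 < cr (u 0) (u (K - 1)) := hpos 0 (K - 1) (by omega) (by omega)
    have hp2 : 0 < cr (u 0) (u K) := hpos 0 K (by omega) (by omega)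
    have e1 : cr (r K) (r (K + 1)) = J K * cr (r K) (u K) := by
      rw [hr1, cr_add_right, cr_self, cr_smul_right]; ring
    have e2 : cr (u 0) (r (K + 1)) = cr (u 0) (r K) + J K * cr (u 0) (u K) := by
      rw [hr1, cr_add_right, cr_smul_right]
    have e3 : cr (r (K + 1)) (u K) = cr (r K) (u K) := by
      rw [hr1, cr_add_left, cr_smul_left, cr_self]; ring
    have hsub : K + 1 - 1 = K := by omega
    rw [hsub, e1, e2, e3]
    have pl := cr_pluecker (r K) (u (K - 1)) (u 0) (u K)
    set A := cr (u 0) (u (K - 1)) with hA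
    set B := cr (u 0) (u K) with hB
    set y := cr (u 0) (r K) with hy
    set P := cr (r K) (u (K - 1)) with hP
    set Q := cr (r K) (u K) with hQ
    set W := cr (u (K - 1)) (u K) with hW
    have hA0 : A ≠ 0 := hp1.ne'
    have hB0 : B ≠ 0 := hp2.ne'
    have key : y * (P / A) + J K * Q = (y + J K * B) * (Q / B) - W / (A * B) * y ^ 2 := by
      field_simp
      linear_combination y * pl
    linarith [key]

/-- **Lemma W**, exact form. -/
theorem lemW_exact (N : ℕ) (hN2 : 2 ≤ N) (u : ℕ → ℂ) (J : ℕ → ℝ) (r : ℕ → ℂ)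
    (hpos : ∀ i j, i < j → j < N → 0 < cr (u i) (u j))
    (h0 : r 0 = 0) (hr : ∀ k, k < N → r (k + 1) = r k + (J k : ℂ) * u k) (hN : r N = 0) :
      ∑ k ∈ range N, cr (r k) (r (k + 1)) =
        - ∑ k ∈ Ico 2 N, cr (u (k - 1)) (u k) / (cr (u 0) (u (k - 1)) * cr (u 0) (u k)) *
          (cr (u 0) (r k)) ^ 2 := by
  rw [lemW_partial N u J r hpos h0 hr N hN2 le_rfl, hN]
  simp [cr_zero_left, cr_zero_right]

/-- **Lemma W**, sign form. -/
theorem lemW_nonpos (N : ℕ) (u : ℕ → ℂ) (J : ℕ → ℝ) (r : ℕ → ℂ)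
    (hpos : ∀ i j, i < j → j < N → 0 < cr (u i) (u j))
    (h0 : r 0 = 0) (hr : ∀ k, k < N → r (k + 1) = r k + (J k : ℂ) * u k) (hN : r N = 0) :
      ∑ k ∈ range N, cr (r k) (r (k + 1)) ≤ 0 := by
  rcases Nat.lt_or_ge N 2 with h | h
  · interval_cases N
    · simp
    · simp [h0, hN, cr_zero_left]
  · rw [lemW_exact N h u J r hpos h0 hr hN]
    have : 0 ≤ ∑ k ∈ Ico 2 N, cr (u (k - 1)) (u k) / (cr (u 0) (u (k - 1)) * cr (u 0) (u k)) *
          (cr (u 0) (r k)) ^ 2 := by
      apply Finset.sum_nonneg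
      intro k hk
      rw [Finset.mem_Ico] at hk
      have a1 := hpos (k - 1) k (by omega) (by omega)
      have a2 := hpos 0 (k - 1) (by omega) (by omega)
      have a3 := hpos 0 k (by omega) (by omega)
      positivity
    linarith

end MP97284cU
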