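import Mathlib
import Pool.Agent.Lib.MP_97284c_gt.U.LemW

/-!
# MP_97284c_gt, part U: KKT star polygons, side conditions
-/

namespace MP97284cU

open Finset Real

/-- cosine entering the KKT condition at the hinge number `k+1` -/
noncomputable def cK (N : ℕ) (φ : ℕ → ℝ) (k : ℕ) : ℝ :=
  if N ∣ (k + 1) then Real.cos ((φ (k + 1) - φ k) / 2) else Real.cos (φ (k + 1) - φ k)

/-- A closed star polygon with unit edges which satisfies the KKT condition with centre `0`. -/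
structure StarD (N : ℕ) (φ : ℕ → ℝ) (T : ℕ → ℂ) (C : ℝ) : Prop where
  perφ : ∀ k, φ (k + N) = φ k + π
  perT : ∀ k, T (k + N) = T k
  step : ∀ k, T (k + 1) = T k + (((-1 : ℝ) ^ k : ℝ) : ℂ) *
    (⟨Real.cos (φ k), Real.sin (φ k)⟩ : ℂ)
  pos : ∀ k, φ k < φ (k + 1)
  le : ∀ k, φ (k + 1) - φ k ≤ π / 3
  kkt : ∀ k, Complex.normSq (T (k + 1)) = cK N φ k / 2 + C

variable {N : ℕ} {φ : ℕ → ℝ} {T : ℕ → ℂ} {C : ℝ}

/-- unit vector of the bar number `k` -/
noncomputable def ew (φ : ℕ → ℝ) (k : ℕ) : ℂ := ⟨Real.cos (φ k), Real.sin (φ k)⟩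

theorem sg_sq (k : ℕ) : ((-1 : ℝ) ^ k) * ((-1 : ℝ) ^ k) = 1 := by
  rw [← pow_add, ← two_mul, pow_mul]; simp

theorem hingeI (h : StarD N φ T C) (k : ℕ) :
    Real.sin (φ (k + 1) - φ k) * (-cr (T k) (T (k + 1))) =
      (1 - Complex.normSq (T (k + 2)) + Complex.normSq (T (k + 1))) / 2 -
      (1 - Complex.normSq (T k) + Complex.normSq (T (k + 1))) / 2 *
        Real.cos (φ (k + 1) - φ k) := by
  have s1 := h.step k
  have s2 := h.step (k + 1)
  set σ : ℝ := (-1 : ℝ) ^ k with hσ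
  have hσ2 : σ * σ = 1 := sg_sq k
  have hpow : ((-1 : ℝ) ^ (k + 1)) = -σ := by rw [pow_succ, hσ]; ring
  rw [hpow] at s2
  have r1 : (T k).re = (T (k + 1)).re - σ * Real.cos (φ k) := by
    rw [s1]; simp
  have i1 : (T k).im = (T (k + 1)).im - σ * Real.sin (φ k) := by
    rw [s1]; simp
  have r2 : (T (k + 2)).re = (T (k + 1)).re - σ * Real.cos (φ (k + 1)) := by
    rw [s2]; simp; ring
  have i2 : (T (k + 2)).im = (T (k + 1)).im - σ * Real.sin (φ (k + 1)) := by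
    rw [s2]; simp; ring
  rw [Real.sin_sub, Real.cos_sub]
  simp only [cr, Complex.normSq_apply, r1, i1, r2, i2]
  set x := (T (k + 1)).re
  set y := (T (k + 1)).im
  have p0 := Real.sin_sq_add_cos_sq (φ k)
  have p1 := Real.sin_sq_add_cos_sq (φ (k + 1))
  set c0 := Real.cos (φ k)
  set s0 := Real.sin (φ k)
  set c1 := Real.cos (φ (k + 1))
  set s1' := Real.sin (φ (k + 1))
  have q0 : s0 ^ 2 = 1 - c0 ^ 2 := by linarith
  have q1 : s1' ^ 2 = 1 - c1 ^ 2 := by linarith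
  have qσ : σ ^ 2 = 1 := by nlinarith
  have e1 : (x - σ * c0) * (x - σ * c0) + (y - σ * s0) * (y - σ * s0) =
      x * x + y * y - 2 * σ * (x * c0 + y * s0) + 1 := by
    linear_combination (c0 ^ 2 + s0 ^ 2) * qσ + q0
  have e2 : (x - σ * c1) * (x - σ * c1) + (y - σ * s1') * (y - σ * s1') =
      x * x + y * y - 2 * σ * (x * c1 + y * s1') + 1 := by
    linear_combination (c1 ^ 2 + s1' ^ 2) * qσ + q1
  rw [e1, e2]
  linear_combination (σ * (x * c1 + y * s1')) * (q0)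

theorem hingeII (h : StarD N φ T C) (k : ℕ) :
    Real.sin (φ (k + 1) - φ k) * (-cr (T (k + 1)) (T (k + 2))) =
      (1 - Complex.normSq (T k) + Complex.normSq (T (k + 1))) / 2 -
      (1 - Complex.normSq (T (k + 2)) + Complex.normSq (T (k + 1))) / 2 *
        Real.cos (φ (k + 1) - φ k) := by
  have s1 := h.step k
  have s2 := h.step (k + 1)
  set σ : ℝ := (-1 : ℝ) ^ k with hσ
  have hσ2 : σ * σ = 1 := sg_sq k
  have hpow : ((-1 : ℝ) ^ (k + 1)) = -σ := by rw [pow_succ, hσ]; ring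
  rw [hpow] at s2
  have r1 : (T k).re = (T (k + 1)).re - σ * Real.cos (φ k) := by
    rw [s1]; simp
  have i1 : (T k).im = (T (k + 1)).im - σ * Real.sin (φ k) := by
    rw [s1]; simp
  have r2 : (T (k + 2)).re = (T (k + 1)).re - σ * Real.cos (φ (k + 1)) := by
    rw [s2]; simp; ring
  have i2 : (T (k + 2)).im = (T (k + 1)).im - σ * Real.sin (φ (k + 1)) := by
    rw [s2]; simp; ring
  rw [Real.sin_sub, Real.cos_sub]
  simp only [cr, Complex.normSq_apply, r1, i1, r2, i2]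
  set x := (T (k + 1)).re
  set y := (T (k + 1)).im
  have p0 := Real.sin_sq_add_cos_sq (φ k)
  have p1 := Real.sin_sq_add_cos_sq (φ (k + 1))
  set c0 := Real.cos (φ k)
  set s0 := Real.sin (φ k)
  set c1 := Real.cos (φ (k + 1))
  set s1' := Real.sin (φ (k + 1))
  have q0 : s0 ^ 2 = 1 - c0 ^ 2 := by linarith
  have q1 : s1' ^ 2 = 1 - c1 ^ 2 := by linarith
  have qσ : σ ^ 2 = 1 := by nlinarith
  have e1 : (x - σ * c0) * (x - σ * c0) + (y - σ * s0) * (y - σ * s0) =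
      x * x + y * y - 2 * σ * (x * c0 + y * s0) + 1 := by
    linear_combination (c0 ^ 2 + s0 ^ 2) * qσ + q0
  have e2 : (x - σ * c1) * (x - σ * c1) + (y - σ * s1') * (y - σ * s1') =
      x * x + y * y - 2 * σ * (x * c1 + y * s1') + 1 := by
    linear_combination (c1 ^ 2 + s1' ^ 2) * qσ + q1
  rw [e1, e2]
  linear_combination (σ * (x * c0 + y * s0)) * (q1)

end MP97284cU
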