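import Mathlib
import Pool.Agent.Lib.MP_97284c_gt.U.Star

/-!
# MP_97284c_gt, part U: side conditions of KKT star polygons
-/

namespace MP97284cU

open Finset Real

variable {N : ℕ} {φ : ℕ → ℝ} {T : ℕ → ℂ} {C : ℝ}

theorem core1 {s t : ℝ} (hs : 0 < s) (hs2 : s ≤ 1 / 2) (ht : 0 ≤ t) (hts : t ≤ s) :
    s - t ≤ s + (1 - s) * (s - t) ∧ 0 < s + (1 - s) * (s - t) := by
  have h1 : 0 ≤ (1 - s) * (s - t) := mul_nonneg (by linarith) (by linarith)
  exact ⟨by linarith, by linarith⟩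

theorem core2 {s t : ℝ} (hs : 0 < s) (hs2 : s ≤ 1 / 2) (ht : 0 ≤ t) (hts : t ≤ s) :
    s - t ≤ 8 * s - t - 8 * s ^ 2 + 4 * s * t + 2 * s ^ 3 - 2 * s ^ 2 * t ∧
      0 < 8 * s - t - 8 * s ^ 2 + 4 * s * t + 2 * s ^ 3 - 2 * s ^ 2 * t := by
  have h1 : 0 < s * (7 - 8 * s) := mul_pos hs (by linarith)
  have h2 : 0 ≤ s * t * (4 - 2 * s) := mul_nonneg (mul_nonneg hs.le ht) (by linarith)
  have h3 : 0 ≤ s ^ 3 := by positivity
  constructor <;> nlinarith

theorem cK_le_one (k : ℕ) : cK N φ k ≤ 1 := by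
  unfold cK; split_ifs <;> exact Real.cos_le_one _

theorem beta_pos (h : StarD N φ T C) (k : ℕ) : 0 < φ (k + 1) - φ k := by
  linarith [h.pos k]

theorem cK_lt_one (h : StarD N φ T C) (k : ℕ) : cK N φ k < 1 := by
  have h1 := beta_pos h k
  have h2 := h.le k
  have hpi := Real.pi_pos
  unfold cK
  split_ifs
  · have := Real.cos_lt_cos_of_nonneg_of_le_pi (x := 0) (y := (φ (k + 1) - φ k) / 2)
      le_rfl (by linarith) (by linarith)
    simpa using this
  · have := Real.cos_lt_cos_of_nonneg_of_le_pi (x := 0) (y := (φ (k + 1) - φ k))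
      le_rfl (by linarith) (by linarith)
    simpa using this

theorem cK_ge_half (h : StarD N φ T C) (k : ℕ) : 1 / 2 ≤ cK N φ k := by
  have h1 := beta_pos h k
  have h2 := h.le k
  have hpi := Real.pi_pos
  have hc : Real.cos (π / 3) = 1 / 2 := Real.cos_pi_div_three
  unfold cK
  split_ifs
  · have := Real.cos_le_cos_of_nonneg_of_le_pi (x := (φ (k + 1) - φ k) / 2) (y := π / 3)
      (by linarith) (by linarith) (by linarith)
    linarith
  · have := Real.cos_le_cos_of_nonneg_of_le_pi (x := (φ (k + 1) - φ k)) (y := π / 3)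
      (by linarith) (by linarith) (by linarith)
    linarith

theorem sin_beta (h : StarD N φ T C) (k : ℕ) :
    0 < Real.sin (φ (k + 1) - φ k) ∧ Real.sin (φ (k + 1) - φ k) ≤ 1 := by
  have h1 := beta_pos h k
  have h2 := h.le k
  have hpi := Real.pi_pos
  exact ⟨Real.sin_pos_of_pos_of_lt_pi h1 (by linarith), Real.sin_le_one _⟩

theorem cos_beta_cases (k : ℕ) :
    Real.cos (φ (k + 1) - φ k) = cK N φ k ∨
    Real.cos (φ (k + 1) - φ k) = 2 * cK N φ k ^ 2 - 1 := by
  unfold cK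
  split_ifs
  · right
    have := Real.cos_two_mul ((φ (k + 1) - φ k) / 2)
    rw [← this]; congr 1; ring
  · left; rfl

/-- lower bound used at the hinge with the larger angle -/
theorem core_bound {a b c cb sb g : ℝ} (hb1 : 1 / 2 ≤ b) (hb2 : b < 1) (ha : a ≤ 1)
    (hab : b ≤ a) (hc : c ≤ 1) (hcb : cb = b ∨ cb = 2 * b ^ 2 - 1)
    (hsb : 0 < sb) (hsb1 : sb ≤ 1)
    (hg : 4 * (sb * g) = (2 - c + b) - (2 - a + b) * cb) :
    0 < g ∧ (a - b) / 4 ≤ g := by
  have hs : 0 < 1 - b := by linarith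
  have hs2 : 1 - b ≤ 1 / 2 := by linarith
  have ht : 0 ≤ 1 - a := by linarith
  have hts : 1 - a ≤ 1 - b := by linarith
  have key : ∃ X, X ≤ 4 * (sb * g) ∧ a - b ≤ X ∧ 0 < X := by
    rcases hcb with h | h
    · obtain ⟨k1, k2⟩ := core1 hs hs2 ht hts
      refine ⟨_, ?_, ?_, k2⟩
      · rw [hg, h]; nlinarith
      · linarith
    · obtain ⟨k1, k2⟩ := core2 hs hs2 ht hts
      refine ⟨_, ?_, ?_, k2⟩
      · rw [hg, h]; nlinarith
      · linarith
  obtain ⟨X, hX1, hX2, hX3⟩ := key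
  have hg0 : 0 < sb * g := by linarith
  have hgpos : 0 < g := pos_of_mul_pos_right hg0 hsb.le
  refine ⟨hgpos, ?_⟩
  have : sb * g ≤ g := by nlinarith
  linarith

/-- side condition for the bars with index at least two -/
theorem side_aux (h : StarD N φ T C) (m : ℕ) :
    0 < - cr (T (m + 2)) (T (m + 3)) ∧
    |Complex.normSq (T (m + 3)) - Complex.normSq (T (m + 2))| / 2 ≤
      - cr (T (m + 2)) (T (m + 3)) := by
  have k0 := h.kkt m
  have k1 := h.kkt (m + 1)
  have k2 := h.kkt (m + 2)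
  have k3 := h.kkt (m + 3)
  have kI := hingeI h (m + 2)
  have kII := hingeII h (m + 1)
  simp only [add_assoc, Nat.reduceAdd] at k0 k1 k2 k3 kI kII
  rw [k1, k2, k3] at kI
  rw [k0, k1, k2] at kII
  have hd : Complex.normSq (T (m + 3)) - Complex.normSq (T (m + 2)) =
      (cK N φ (m + 2) - cK N φ (m + 1)) / 2 := by rw [k1, k2]; ring
  rw [hd]
  have hcc2 := cos_beta_cases (N := N) (φ := φ) (m + 2)
  have hcc1 := cos_beta_cases (N := N) (φ := φ) (m + 1)
  have sb2 := sin_beta h (m + 2)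
  have sb1 := sin_beta h (m + 1)
  simp only [add_assoc, Nat.reduceAdd] at hcc1 hcc2 sb1 sb2
  rcases le_total (cK N φ (m + 2)) (cK N φ (m + 1)) with hle | hle
  · have := core_bound (a := cK N φ (m + 1)) (b := cK N φ (m + 2)) (c := cK N φ (m + 3))
      (cb := Real.cos (φ (m + 3) - φ (m + 2))) (sb := Real.sin (φ (m + 3) - φ (m + 2)))
      (g := - cr (T (m + 2)) (T (m + 3))) (cK_ge_half h _) (cK_lt_one h _) (cK_le_one _) hle
      (cK_le_one _) hcc2 sb2.1 sb2.2 (by rw [kI]; ring)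
    refine ⟨this.1, ?_⟩
    rw [abs_of_nonpos (by linarith)]
    linarith [this.2]
  · have := core_bound (a := cK N φ (m + 2)) (b := cK N φ (m + 1)) (c := cK N φ m)
      (cb := Real.cos (φ (m + 2) - φ (m + 1))) (sb := Real.sin (φ (m + 2) - φ (m + 1)))
      (g := - cr (T (m + 2)) (T (m + 3))) (cK_ge_half h _) (cK_lt_one h _) (cK_le_one _) hle
      (cK_le_one _) hcc1 sb1.1 sb1.2 (by rw [kII]; ring)
    refine ⟨this.1, ?_⟩
    rw [abs_of_nonneg (by linarith)]
    linarith [this.2]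

/-- **Side conditions** of a KKT star polygon. -/
theorem side (h : StarD N φ T C) (hN : 2 ≤ N) (k : ℕ) :
    0 < - cr (T k) (T (k + 1)) ∧
    |Complex.normSq (T (k + 1)) - Complex.normSq (T k)| / 2 ≤ - cr (T k) (T (k + 1)) := by
  have := side_aux h (k + N - 2)
  have e2 : k + N - 2 + 2 = k + N := by omega
  have e3 : k + N - 2 + 3 = (k + 1) + N := by omega
  rw [e2, e3, h.perT, h.perT] at this
  exact this

end MP97284cU
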