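import Mathlib
import Pool.Agent.Lib.MP_97284c_gt.U.Side

/-!
# MP_97284c_gt, part U: the averaging identity for two star polygons
-/

namespace MP97284cU

open Finset Real

variable {N : ℕ} {φ φ' : ℕ → ℝ} {T T' : ℕ → ℂ} {C C' : ℝ}

/-- half difference of the directions -/
noncomputable def yy (φ φ' : ℕ → ℝ) (k : ℕ) : ℝ := (φ' k - φ k) / 2
/-- mean direction -/
noncomputable def pp (φ φ' : ℕ → ℝ) (k : ℕ) : ℝ := (φ' k + φ k) / 2
/-- weight `2 tan (x/2)` -/
noncomputable def ta (φ φ' : ℕ → ℝ) (k : ℕ) : ℝ := 2 * Real.tan (yy φ φ' k)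
/-- average polygon -/
noncomputable def Tb (T T' : ℕ → ℂ) (k : ℕ) : ℂ := (T k + T' k) / 2
/-- difference of the polygons -/
noncomputable def XX (T T' : ℕ → ℂ) (k : ℕ) : ℂ := T' k - T k
/-- instantaneous translation of the bar number `k` -/
noncomputable def rh (φ φ' : ℕ → ℝ) (T T' : ℕ → ℂ) (k : ℕ) : ℂ :=
  -Complex.I * XX T T' k - (ta φ φ' k : ℂ) * Tb T T' k

theorem Tb_step (h : StarD N φ T C) (h' : StarD N φ' T' C') (k : ℕ) :
    Tb T T' (k + 1) = Tb T T' k +
      (((-1 : ℝ) ^ k * Real.cos (yy φ φ' k) : ℝ) : ℂ) *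
        (⟨Real.cos (pp φ φ' k), Real.sin (pp φ φ' k)⟩ : ℂ) := by
  have s1 := h.step k
  have s2 := h'.step k
  have f1 : φ k = pp φ φ' k - yy φ φ' k := by unfold pp yy; ring
  have f2 : φ' k = pp φ φ' k + yy φ φ' k := by unfold pp yy; ring
  unfold Tb
  rw [s1, s2, f1, f2, Real.cos_sub, Real.sin_sub, Real.cos_add, Real.sin_add]
  generalize ((-1 : ℝ) ^ k) = σ
  generalize Real.cos (yy φ φ' k) = c
  generalize Real.sin (yy φ φ' k) = s
  generalize Real.cos (pp φ φ' k) = P
  generalize Real.sin (pp φ φ' k) = S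
  apply Complex.ext
  · simp only [Complex.add_re, Complex.mul_re, Complex.ofReal_re, Complex.ofReal_im,
      Complex.div_re, Complex.add_im, Complex.mul_im]
    norm_num
    ring
  · simp only [Complex.add_re, Complex.mul_re, Complex.ofReal_re, Complex.ofReal_im,
      Complex.div_im, Complex.add_im, Complex.mul_im]
    norm_num
    ring

theorem XX_step (h : StarD N φ T C) (h' : StarD N φ' T' C') (k : ℕ)
    (hc : Real.cos (yy φ φ' k) ≠ 0) :
    XX T T' (k + 1) = XX T T' k +
      Complex.I * (ta φ φ' k : ℂ) * (Tb T T' (k + 1) - Tb T T' k) := by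
  have s1 := h.step k
  have s2 := h'.step k
  rw [Tb_step h h' k]
  have f1 : φ k = pp φ φ' k - yy φ φ' k := by unfold pp yy; ring
  have f2 : φ' k = pp φ φ' k + yy φ φ' k := by unfold pp yy; ring
  unfold XX ta
  rw [s1, s2, f1, f2, Real.cos_sub, Real.sin_sub, Real.cos_add, Real.sin_add,
    Real.tan_eq_sin_div_cos]
  have hts : Real.sin (yy φ φ' k) / Real.cos (yy φ φ' k) * Real.cos (yy φ φ' k) =
    Real.sin (yy φ φ' k) := by field_simp
  generalize Real.sin (yy φ φ' k) / Real.cos (yy φ φ' k) = t at *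
  generalize ((-1 : ℝ) ^ k) = σ
  generalize Real.cos (yy φ φ' k) = c at *
  generalize Real.sin (yy φ φ' k) = s at *
  generalize Real.cos (pp φ φ' k) = P
  generalize Real.sin (pp φ φ' k) = S
  subst hts
  apply Complex.ext
  · simp only [Complex.add_re, Complex.sub_re, Complex.mul_re, Complex.ofReal_re,
      Complex.ofReal_im, Complex.add_im, Complex.sub_im, Complex.mul_im, Complex.I_re,
      Complex.I_im]
    ring
  · simp only [Complex.add_re, Complex.sub_re, Complex.mul_re, Complex.ofReal_re,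
      Complex.ofReal_im, Complex.add_im, Complex.sub_im, Complex.mul_im, Complex.I_re,
      Complex.I_im]
    ring

theorem rh_alt (h : StarD N φ T C) (h' : StarD N φ' T' C') (k : ℕ)
    (hc : Real.cos (yy φ φ' k) ≠ 0) :
    rh φ φ' T T' k = -Complex.I * XX T T' (k + 1) - (ta φ φ' k : ℂ) * Tb T T' (k + 1) := by
  have hx := XX_step h h' k hc
  unfold rh
  rw [hx]
  have hI : Complex.I * Complex.I = -1 := Complex.I_mul_I
  linear_combination (ta φ φ' k : ℂ) * (Tb T T' (k + 1) - Tb T T' k) * hI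

theorem rh_step (h : StarD N φ T C) (h' : StarD N φ' T' C') (k : ℕ)
    (hc : Real.cos (yy φ φ' k) ≠ 0) :
    rh φ φ' T T' (k + 1) = rh φ φ' T T' k -
      ((ta φ φ' (k + 1) - ta φ φ' k : ℝ) : ℂ) * Tb T T' (k + 1) := by
  rw [rh_alt h h' k hc]
  unfold rh
  push_cast
  ring

theorem term_id (h : StarD N φ T C) (h' : StarD N φ' T' C') (k : ℕ)
    (hc : Real.cos (yy φ φ' k) ≠ 0) :
    (ta φ φ' (k + 1) - ta φ φ' k) *
      (Complex.normSq (T' (k + 1)) - Complex.normSq (T (k + 1))) =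
      -2 * cr (rh φ φ' T T' k) (rh φ φ' T T' (k + 1)) := by
  rw [rh_step h h' k hc, rh_alt h h' k hc]
  simp only [cr, Complex.normSq_apply, XX, Tb]
  simp
  ring

theorem normSq_diff (h : StarD N φ T C) (h' : StarD N φ' T' C') (k : ℕ) :
    Complex.normSq (T' (k + 1)) - Complex.normSq (T (k + 1)) =
      (cK N φ' k - cK N φ k) / 2 + (C' - C) := by
  rw [h.kkt, h'.kkt]; ring

end MP97284cU
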