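import Mathlib
import Pool.Agent.Lib.MP_97284c_gt.U.Avg

/-!
# MP_97284c_gt, part U: uniqueness of the KKT star polygon
-/

namespace MP97284cU

open Finset Real

variable {N : ℕ} {φ φ' : ℕ → ℝ} {T T' : ℕ → ℂ} {C C' : ℝ}

/-- unit vector of the mean direction -/
noncomputable def eb (φ φ' : ℕ → ℝ) (k : ℕ) : ℂ :=
  ⟨Real.cos (pp φ φ' k), Real.sin (pp φ φ' k)⟩

theorem cr_eb (a b : ℕ) :
    cr (eb φ φ' a) (eb φ φ' b) = Real.sin (pp φ φ' b - pp φ φ' a) := by
  rw [Real.sin_sub]; simp [cr, eb]; ring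

theorem pp_lt (h : StarD N φ T C) (h' : StarD N φ' T' C') (k : ℕ) :
    pp φ φ' k < pp φ φ' (k + 1) := by
  unfold pp; linarith [h.pos k, h'.pos k]

theorem pp_mono (h : StarD N φ T C) (h' : StarD N φ' T' C') : StrictMono (pp φ φ') :=
  strictMono_nat_of_lt_succ (pp_lt h h')

theorem pp_per (h : StarD N φ T C) (h' : StarD N φ' T' C') (k : ℕ) :
    pp φ φ' (k + N) = pp φ φ' k + π := by
  unfold pp; rw [h.perφ, h'.perφ]; ring

theorem cr_eb_pos (h : StarD N φ T C) (h' : StarD N φ' T' C') {a b : ℕ} (hab : a < b)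
    (hb : b < a + N) : 0 < cr (eb φ φ' a) (eb φ φ' b) := by
  rw [cr_eb]
  have h1 := pp_mono h h' hab
  have h2 := pp_mono h h' hb
  rw [pp_per h h'] at h2
  exact Real.sin_pos_of_pos_of_lt_pi (by linarith) (by linarith)

theorem cr_eb_nonneg (h : StarD N φ T C) (h' : StarD N φ' T' C') {a b : ℕ} (hab : a ≤ b)
    (hb : b ≤ a + N) : 0 ≤ cr (eb φ φ' a) (eb φ φ' b) := by
  rw [cr_eb]
  have h1 := (pp_mono h h').monotone hab
  have h2 := (pp_mono h h').monotone hb
  rw [pp_per h h'] at h2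
  exact Real.sin_nonneg_of_nonneg_of_le_pi (by linarith) (by linarith)

/-- the side condition for the average polygon -/
theorem avg_side (h : StarD N φ T C) (h' : StarD N φ' T' C') (hN : 2 ≤ N) (k : ℕ)
    (hy : |yy φ φ' k| < π / 4) :
    0 < - cr (Tb T T' k) (Tb T T' (k + 1)) := by
  obtain ⟨g1, b1⟩ := side h hN k
  obtain ⟨g2, b2⟩ := side h' hN k
  have hpi := Real.pi_pos
  rw [abs_lt] at hy
  have hcpos : 0 < Real.cos (yy φ φ' k) :=
    Real.cos_pos_of_mem_Ioo ⟨by linarith, by linarith⟩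
  have hsc : |Real.sin (yy φ φ' k)| < Real.cos (yy φ φ' k) := by
    rw [abs_lt]
    have e1 : 0 < Real.sin (yy φ φ' k + π / 4) :=
      Real.sin_pos_of_pos_of_lt_pi (by linarith) (by linarith)
    have e2 : 0 < Real.cos (yy φ φ' k + π / 4) :=
      Real.cos_pos_of_mem_Ioo ⟨by linarith, by linarith⟩
    rw [Real.sin_add, Real.cos_pi_div_four, Real.sin_pi_div_four] at e1
    rw [Real.cos_add, Real.cos_pi_div_four, Real.sin_pi_div_four] at e2
    have hs2 : 0 < √2 / 2 := by positivity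
    constructor
    · have : 0 < (Real.sin (yy φ φ' k) + Real.cos (yy φ φ' k)) * (√2 / 2) := by linarith
      have := pos_of_mul_pos_left this hs2.le
      linarith
    · have : 0 < (Real.cos (yy φ φ' k) - Real.sin (yy φ φ' k)) * (√2 / 2) := by linarith
      have := pos_of_mul_pos_left this hs2.le
      linarith
  have tb := Tb_step h h' k
  have s1 := h.step k
  have s2 := h'.step k
  have f1 : φ k = pp φ φ' k - yy φ φ' k := by unfold pp yy; ring
  have f2 : φ' k = pp φ φ' k + yy φ φ' k := by unfold pp yy; ring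
  have hσ2 : ((-1 : ℝ) ^ k) ^ 2 = 1 := by rw [sq]; exact sg_sq k
  have hps := Real.sin_sq_add_cos_sq (pp φ φ' k)
  have hys := Real.sin_sq_add_cos_sq (yy φ φ' k)
  rw [f1] at s1
  rw [f2] at s2
  rw [Real.cos_sub, Real.sin_sub] at s1
  rw [Real.cos_add, Real.sin_add] at s2
  generalize ((-1 : ℝ) ^ k) = σ at *
  generalize Real.cos (yy φ φ' k) = c at *
  generalize Real.sin (yy φ φ' k) = s at *
  generalize Real.cos (pp φ φ' k) = P at *
  generalize Real.sin (pp φ φ' k) = S at *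
  -- the value
  have val : - cr (Tb T T' k) (Tb T T' (k + 1)) =
      (c ^ 2 * (- cr (T k) (T (k + 1)) + - cr (T' k) (T' (k + 1))) +
      s * c * ((Complex.normSq (T' (k + 1)) - Complex.normSq (T' k)) / 2 -
        (Complex.normSq (T (k + 1)) - Complex.normSq (T k)) / 2)) / 2 := by
    have hg1 : - cr (T k) (T (k + 1)) =
        σ * ((P * c + S * s) * (T k).im - (S * c - P * s) * (T k).re) := by
      rw [s1]; simp only [cr, Complex.add_re, Complex.mul_re, Complex.ofReal_re,
        Complex.ofReal_im, Complex.add_im, Complex.mul_im]; ring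
    have hg2 : - cr (T' k) (T' (k + 1)) =
        σ * ((P * c - S * s) * (T' k).im - (S * c + P * s) * (T' k).re) := by
      rw [s2]; simp only [cr, Complex.add_re, Complex.mul_re, Complex.ofReal_re,
        Complex.ofReal_im, Complex.add_im, Complex.mul_im]; ring
    have hunit : σ ^ 2 * ((P ^ 2 + S ^ 2) * (c ^ 2 + s ^ 2)) = 1 := by
      have e1 : P ^ 2 + S ^ 2 = 1 := by linarith
      have e2 : c ^ 2 + s ^ 2 = 1 := by linarith
      rw [hσ2, e1, e2]; norm_num
    have hh1 : Complex.normSq (T (k + 1)) - Complex.normSq (T k) =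
        2 * σ * ((P * c + S * s) * (T k).re + (S * c - P * s) * (T k).im) + 1 := by
      rw [s1]; simp only [Complex.normSq_apply, Complex.add_re, Complex.mul_re,
        Complex.ofReal_re, Complex.ofReal_im, Complex.add_im, Complex.mul_im]
      linear_combination hunit
    have hh2 : Complex.normSq (T' (k + 1)) - Complex.normSq (T' k) =
        2 * σ * ((P * c - S * s) * (T' k).re + (S * c + P * s) * (T' k).im) + 1 := by
      rw [s2]; simp only [Complex.normSq_apply, Complex.add_re, Complex.mul_re,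
        Complex.ofReal_re, Complex.ofReal_im, Complex.add_im, Complex.mul_im]
      linear_combination hunit
    have hl : - cr (Tb T T' k) (Tb T T' (k + 1)) =
        σ * c * (P * (((T k).im + (T' k).im) / 2) - S * (((T k).re + (T' k).re) / 2)) := by
      rw [tb]
      have e1 : (Tb T T' k).re = ((T k).re + (T' k).re) / 2 := by
        simp [Tb]
      have e2 : (Tb T T' k).im = ((T k).im + (T' k).im) / 2 := by
        simp [Tb]
      simp only [cr, Complex.add_re, Complex.mul_re, Complex.ofReal_re,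
        Complex.ofReal_im, Complex.add_im, Complex.mul_im, e1, e2]
      ring
    rw [hl, hg1, hg2, hh1, hh2]
    have e2 : c ^ 2 + s ^ 2 = 1 := by linarith
    linear_combination (-σ * c * (P * (((T k).im + (T' k).im) / 2) -
      S * (((T k).re + (T' k).re) / 2))) * e2
  rw [val]
  have hsc' : |s * ((Complex.normSq (T' (k + 1)) - Complex.normSq (T' k)) / 2 -
        (Complex.normSq (T (k + 1)) - Complex.normSq (T k)) / 2)| <
        c * (- cr (T k) (T (k + 1)) + - cr (T' k) (T' (k + 1))) := by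
    rw [abs_mul]
    have : |(Complex.normSq (T' (k + 1)) - Complex.normSq (T' k)) / 2 -
        (Complex.normSq (T (k + 1)) - Complex.normSq (T k)) / 2| ≤
        - cr (T k) (T (k + 1)) + - cr (T' k) (T' (k + 1)) := by
      have k1' : |(Complex.normSq (T (k + 1)) - Complex.normSq (T k)) / 2| ≤
        - cr (T k) (T (k + 1)) := by rw [abs_div, abs_two]; exact b1
      have k2' : |(Complex.normSq (T' (k + 1)) - Complex.normSq (T' k)) / 2| ≤
        - cr (T' k) (T' (k + 1)) := by rw [abs_div, abs_two]; exact b2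
      rw [abs_le] at k1' k2' ⊢
      constructor <;> linarith [k1'.1, k1'.2, k2'.1, k2'.2]
    nlinarith [abs_nonneg s]
  rw [abs_lt] at hsc'
  have := hsc'.1
  have h3 : 0 < c * (c * (- cr (T k) (T (k + 1)) + - cr (T' k) (T' (k + 1))) +
      s * ((Complex.normSq (T' (k + 1)) - Complex.normSq (T' k)) / 2 -
        (Complex.normSq (T (k + 1)) - Complex.normSq (T k)) / 2)) :=
    mul_pos hcpos (by linarith)
  nlinarith

/-- general Cramer decomposition -/
theorem cr_decomp (a b u v : ℂ) :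
    cr a b * cr u v = cr u b * cr a v + cr a u * cr b v := by
  simp [cr]; ring

/-- the oriented hinge vector -/
noncomputable def uu (T T' : ℕ → ℂ) (k : ℕ) : ℂ := (((-1 : ℝ) ^ k : ℝ) : ℂ) * Tb T T' (k + 1)

theorem cone1 (h : StarD N φ T C) (h' : StarD N φ' T' C') (hN : 2 ≤ N)
    (hy : ∀ k, |yy φ φ' k| < π / 4) (k : ℕ) :
    0 < cr (eb φ φ' k) (uu T T' k) := by
  have hs := avg_side h h' hN k (hy k)
  have tb := Tb_step h h' k
  have hpi := Real.pi_pos
  have hyk := hy k
  rw [abs_lt] at hyk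
  have hcpos : 0 < Real.cos (yy φ φ' k) :=
    Real.cos_pos_of_mem_Ioo ⟨by linarith, by linarith⟩
  have e : - cr (Tb T T' k) (Tb T T' (k + 1)) =
      Real.cos (yy φ φ' k) * cr (eb φ φ' k) (uu T T' k) := by
    have : Tb T T' k = Tb T T' (k + 1) - (((-1 : ℝ) ^ k * Real.cos (yy φ φ' k) : ℝ) : ℂ) *
        (⟨Real.cos (pp φ φ' k), Real.sin (pp φ φ' k)⟩ : ℂ) := by rw [tb]; ring
    rw [this]
    unfold uu eb
    generalize Tb T T' (k + 1) = w
    generalize ((-1 : ℝ) ^ k) = σ
    simp only [cr, Complex.sub_re, Complex.sub_im, Complex.mul_re, Complex.ofReal_re,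
        Complex.ofReal_im, Complex.mul_im]
    ring
  rw [e] at hs
  exact pos_of_mul_pos_right hs hcpos.le

theorem cone2 (h : StarD N φ T C) (h' : StarD N φ' T' C') (hN : 2 ≤ N)
    (hy : ∀ k, |yy φ φ' k| < π / 4) (k : ℕ) :
    0 < cr (uu T T' k) (eb φ φ' (k + 1)) := by
  have hs := avg_side h h' hN (k + 1) (hy (k + 1))
  have tb := Tb_step h h' (k + 1)
  have hpi := Real.pi_pos
  have hyk := hy (k + 1)
  rw [abs_lt] at hyk
  have hcpos : 0 < Real.cos (yy φ φ' (k + 1)) :=
    Real.cos_pos_of_mem_Ioo ⟨by linarith, by linarith⟩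
  have e : - cr (Tb T T' (k + 1)) (Tb T T' (k + 1 + 1)) =
      Real.cos (yy φ φ' (k + 1)) * cr (uu T T' k) (eb φ φ' (k + 1)) := by
    rw [tb]
    unfold uu eb
    rw [pow_succ]
    generalize Tb T T' (k + 1) = w
    generalize ((-1 : ℝ) ^ k) = σ
    simp only [cr, Complex.add_re, Complex.add_im, Complex.mul_re, Complex.ofReal_re,
        Complex.ofReal_im, Complex.mul_im]
    ring
  rw [e] at hs
  exact pos_of_mul_pos_right hs hcpos.le

theorem uu_pos (h : StarD N φ T C) (h' : StarD N φ' T' C') (hN : 2 ≤ N)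
    (hy : ∀ k, |yy φ φ' k| < π / 4) {i j : ℕ} (hij : i < j) (hj : j < N) :
    0 < cr (uu T T' i) (uu T T' j) := by
  have a1 := cone1 h h' hN hy i
  have a2 := cone2 h h' hN hy i
  have b1 := cone1 h h' hN hy j
  have b2 := cone2 h h' hN hy j
  have Di : 0 < cr (eb φ φ' i) (eb φ φ' (i + 1)) := cr_eb_pos h h' (by omega) (by omega)
  have Dj : 0 < cr (eb φ φ' j) (eb φ φ' (j + 1)) := cr_eb_pos h h' (by omega) (by omega)
  have c1 : 0 < cr (eb φ φ' i) (eb φ φ' j) := cr_eb_pos h h' hij (by omega)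
  have c2 : 0 ≤ cr (eb φ φ' i) (eb φ φ' (j + 1)) := cr_eb_nonneg h h' (by omega) (by omega)
  have c3 : 0 ≤ cr (eb φ φ' (i + 1)) (eb φ φ' j) := cr_eb_nonneg h h' (by omega) (by omega)
  have c4 : 0 ≤ cr (eb φ φ' (i + 1)) (eb φ φ' (j + 1)) :=
    cr_eb_nonneg h h' (by omega) (by omega)
  -- cr e_i u_j > 0 and cr e_{i+1} u_j ≥ 0
  have d1 := cr_decomp (eb φ φ' j) (eb φ φ' (j + 1)) (eb φ φ' i) (uu T T' j)
  have d2 := cr_decomp (eb φ φ' j) (eb φ φ' (j + 1)) (eb φ φ' (i + 1)) (uu T T' j)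
  have f1 : 0 < cr (eb φ φ' i) (uu T T' j) := by
    have : 0 < cr (eb φ φ' j) (eb φ φ' (j + 1)) * cr (eb φ φ' i) (uu T T' j) := by
      have e1 : cr (eb φ φ' j) (eb φ φ' i) = - cr (eb φ φ' i) (eb φ φ' j) := cr_comm _ _
      have e2 : cr (eb φ φ' (j + 1)) (uu T T' j) = - cr (uu T T' j) (eb φ φ' (j + 1)) :=
        cr_comm _ _
      rw [d1, e1, e2]
      nlinarith [mul_nonneg c2 b1.le, mul_pos c1 b2]
    exact pos_of_mul_pos_right this Dj.le
  have f2 : 0 ≤ cr (eb φ φ' (i + 1)) (uu T T' j) := by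
    have : 0 ≤ cr (eb φ φ' j) (eb φ φ' (j + 1)) * cr (eb φ φ' (i + 1)) (uu T T' j) := by
      have e1 : cr (eb φ φ' j) (eb φ φ' (i + 1)) = - cr (eb φ φ' (i + 1)) (eb φ φ' j) :=
        cr_comm _ _
      have e2 : cr (eb φ φ' (j + 1)) (uu T T' j) = - cr (uu T T' j) (eb φ φ' (j + 1)) :=
        cr_comm _ _
      rw [d2, e1, e2]
      nlinarith [mul_nonneg c4 b1.le, mul_nonneg c3 b2.le]
    exact nonneg_of_mul_nonneg_right this Dj
  have d3 := cr_decomp (eb φ φ' i) (eb φ φ' (i + 1)) (uu T T' i) (uu T T' j)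
  have : 0 < cr (eb φ φ' i) (eb φ φ' (i + 1)) * cr (uu T T' i) (uu T T' j) := by
    rw [d3]
    nlinarith [mul_pos a2 f1, mul_nonneg a1.le f2]
  exact pos_of_mul_pos_right this Di.le

end MP97284cU
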