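import Mathlib
import Pool.Agent.Lib.MP_97284c_gt.U.Unique

/-!
# MP_97284c_gt, part U: uniqueness of the KKT star polygon, final form
-/

namespace MP97284cU

open Finset Real

variable {N : ℕ} {φ φ' : ℕ → ℝ} {T T' : ℕ → ℂ} {C C' : ℝ}

theorem cK_anti_strict (h : StarD N φ T C) (h' : StarD N φ' T' C') (k : ℕ)
    (hlt : φ (k + 1) - φ k < φ' (k + 1) - φ' k) : cK N φ' k < cK N φ k := by
  have h1 := beta_pos h k
  have h2 := h'.le k
  have hpi := Real.pi_pos
  unfold cK
  split_ifs
  · exact Real.cos_lt_cos_of_nonneg_of_le_pi (by linarith) (by linarith) (by linarith)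
  · exact Real.cos_lt_cos_of_nonneg_of_le_pi (by linarith) (by linarith) (by linarith)

theorem ta_lt {a b : ℝ} (ha : |a| < π / 4) (hb : |b| < π / 4) (hab : a < b) :
    Real.tan a < Real.tan b := by
  rw [abs_lt] at ha hb
  have hpi := Real.pi_pos
  exact Real.tan_lt_tan_of_lt_of_lt_pi_div_two (by linarith) (by linarith) hab

/-- core uniqueness theorem, the directions differ by less than a right angle -/
theorem unique_core (h : StarD N φ T C) (h' : StarD N φ' T' C') (hN : 2 ≤ N)
    (hy : ∀ k, |yy φ φ' k| < π / 4) (k : ℕ) :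
    φ' (k + 1) - φ' k = φ (k + 1) - φ k := by
  have hpi := Real.pi_pos
  have hcos : ∀ k, Real.cos (yy φ φ' k) ≠ 0 := by
    intro k
    have := hy k
    rw [abs_lt] at this
    exact (Real.cos_pos_of_mem_Ioo ⟨by linarith, by linarith⟩).ne'
  -- periodicity
  have yper : ∀ k, yy φ φ' (k + N) = yy φ φ' k := by
    intro k; unfold yy; rw [h.perφ, h'.perφ]; ring
  have taper : ∀ k, ta φ φ' (k + N) = ta φ φ' k := by
    intro k; unfold ta; rw [yper]
  have rper : rh φ φ' T T' N = rh φ φ' T T' 0 := by
    have t1 := h.perT 0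
    have t2 := h'.perT 0
    have t3 := taper 0
    rw [zero_add] at t1 t2 t3
    unfold rh XX Tb
    rw [t1, t2, t3]
  -- the sum of cross products is nonpositive
  have hW : ∑ k ∈ range N, cr (rh φ φ' T T' k - rh φ φ' T T' 0)
      (rh φ φ' T T' (k + 1) - rh φ φ' T T' 0) ≤ 0 := by
    apply lemW_nonpos N (uu T T')
      (fun k => -((ta φ φ' (k + 1) - ta φ φ' k) * (-1 : ℝ) ^ k))
      (fun k => rh φ φ' T T' k - rh φ φ' T T' 0)
    · intro i j hij hj
      exact uu_pos h h' hN hy hij hj
    · simp
    · intro k _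
      rw [rh_step h h' k (hcos k)]
      unfold uu
      have hs : ((((-1 : ℝ) ^ k : ℝ) : ℂ)) * ((((-1 : ℝ) ^ k : ℝ) : ℂ)) = 1 := by
        rw [← Complex.ofReal_mul, sg_sq]; simp
      push_cast at hs ⊢
      linear_combination ((ta φ φ' (k + 1) - ta φ φ' k : ℂ) * Tb T T' (k + 1)) * hs
    · rw [rper]; simp
  have hsum : ∑ k ∈ range N, cr (rh φ φ' T T' k) (rh φ φ' T T' (k + 1)) ≤ 0 := by
    have e : ∀ k, cr (rh φ φ' T T' k) (rh φ φ' T T' (k + 1)) =
        cr (rh φ φ' T T' k - rh φ φ' T T' 0) (rh φ φ' T T' (k + 1) - rh φ φ' T T' 0) +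
        (cr (rh φ φ' T T' 0) (rh φ φ' T T' (k + 1)) - cr (rh φ φ' T T' 0) (rh φ φ' T T' k)) := by
      intro k
      simp [cr]; ring
    rw [Finset.sum_congr rfl (fun k _ => e k), Finset.sum_add_distrib,
      Finset.sum_range_sub (fun k => cr (rh φ φ' T T' 0) (rh φ φ' T T' k)), rper]
    linarith
  -- the telescoping sum of the weights
  have htel : ∑ k ∈ range N, (ta φ φ' (k + 1) - ta φ φ' k) = 0 := by
    rw [Finset.sum_range_sub]
    have := taper 0
    rw [zero_add] at this
    rw [this]; ring
  have hmain : 0 ≤ ∑ k ∈ range N, (ta φ φ' (k + 1) - ta φ φ' k) *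
      ((cK N φ' k - cK N φ k) / 2) := by
    have e : ∀ k, (ta φ φ' (k + 1) - ta φ φ' k) * ((cK N φ' k - cK N φ k) / 2) =
        -2 * cr (rh φ φ' T T' k) (rh φ φ' T T' (k + 1)) -
          (C' - C) * (ta φ φ' (k + 1) - ta φ φ' k) := by
      intro k
      rw [← term_id h h' k (hcos k), normSq_diff h h' k]
      ring
    rw [Finset.sum_congr rfl (fun k _ => e k), Finset.sum_sub_distrib, ← Finset.mul_sum,
      ← Finset.mul_sum, htel]
    linarith
  -- every term is nonpositive, and zero only if the angles agree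
  have hterm : ∀ k, (ta φ φ' (k + 1) - ta φ φ' k) * ((cK N φ' k - cK N φ k) / 2) ≤ 0 ∧
      ((ta φ φ' (k + 1) - ta φ φ' k) * ((cK N φ' k - cK N φ k) / 2) = 0 →
        φ' (k + 1) - φ' k = φ (k + 1) - φ k) := by
    intro k
    rcases lt_trichotomy (φ' (k + 1) - φ' k) (φ (k + 1) - φ k) with hlt | heq | hgt
    · have c1 := cK_anti_strict h' h k hlt
      have c2 : ta φ φ' (k + 1) < ta φ φ' k := by
        unfold ta
        have := ta_lt (hy (k + 1)) (hy k) (by unfold yy; linarith)
        linarith
      have : (ta φ φ' (k + 1) - ta φ φ' k) * ((cK N φ' k - cK N φ k) / 2) < 0 :=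
        mul_neg_of_neg_of_pos (by linarith) (by linarith)
      exact ⟨this.le, fun h0 => absurd h0 this.ne⟩
    · have : ta φ φ' (k + 1) = ta φ φ' k := by
        unfold ta
        have : yy φ φ' (k + 1) = yy φ φ' k := by unfold yy; linarith
        rw [this]
      exact ⟨by rw [this]; simp, fun _ => heq⟩
    · have c1 := cK_anti_strict h h' k hgt
      have c2 : ta φ φ' k < ta φ φ' (k + 1) := by
        unfold ta
        have := ta_lt (hy k) (hy (k + 1)) (by unfold yy; linarith)
        linarith
      have : (ta φ φ' (k + 1) - ta φ φ' k) * ((cK N φ' k - cK N φ k) / 2) < 0 :=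
        mul_neg_of_pos_of_neg (by linarith) (by linarith)
      exact ⟨this.le, fun h0 => absurd h0 this.ne⟩
  have hzero : ∀ k ∈ range N,
      (ta φ φ' (k + 1) - ta φ φ' k) * ((cK N φ' k - cK N φ k) / 2) = 0 := by
    have hle : ∑ k ∈ range N, (ta φ φ' (k + 1) - ta φ φ' k) *
      ((cK N φ' k - cK N φ k) / 2) = 0 :=
      le_antisymm (Finset.sum_nonpos (fun k _ => (hterm k).1)) hmain
    exact (Finset.sum_eq_zero_iff_of_nonpos (fun k _ => (hterm k).1)).1 hle
  -- reduce `k` modulo `N`
  have hN0 : 0 < N := by omega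
  have hmod : ∀ (ψ : ℕ → ℝ), (∀ k, ψ (k + N) = ψ k + π) → ∀ q r,
      ψ (r + q * N + 1) - ψ (r + q * N) = ψ (r + 1) - ψ r := by
    intro ψ hψ q r
    induction q with
    | zero => simp
    | succ q ih =>
      have e1 : r + (q + 1) * N + 1 = (r + q * N + 1) + N := by ring
      have e2 : r + (q + 1) * N = (r + q * N) + N := by ring
      rw [e1, e2, hψ, hψ]; linarith
  have hk : k = k % N + (k / N) * N := by
    have := Nat.mod_add_div k N; rw [mul_comm] at this; omega
  have hlt : k % N < N := Nat.mod_lt _ hN0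
  have hz := (hterm (k % N)).2 (hzero _ (Finset.mem_range.2 hlt))
  rw [hk, hmod φ' h'.perφ, hmod φ h.perφ]
  exact hz

/-- rotation of the data -/
theorem StarD.rot (h : StarD N φ T C) (θ : ℝ) :
    StarD N (fun k => φ k + θ) (fun k => (⟨Real.cos θ, Real.sin θ⟩ : ℂ) * T k) C where
  perφ k := by rw [h.perφ]; ring
  perT k := by rw [h.perT]
  step k := by
    rw [h.step k, Real.cos_add, Real.sin_add]
    generalize ((-1 : ℝ) ^ k) = σ
    apply Complex.ext
    · simp only [Complex.add_re, Complex.mul_re, Complex.ofReal_re, Complex.ofReal_im,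
        Complex.add_im, Complex.mul_im]
      ring
    · simp only [Complex.add_re, Complex.mul_re, Complex.ofReal_re, Complex.ofReal_im,
        Complex.add_im, Complex.mul_im]
      ring
  pos k := by linarith [h.pos k]
  le k := by linarith [h.le k]
  kkt k := by
    rw [Complex.normSq_mul, h.kkt k]
    have : Complex.normSq (⟨Real.cos θ, Real.sin θ⟩ : ℂ) = 1 := by
      simp [Complex.normSq_apply]
      have := Real.sin_sq_add_cos_sq θ
      nlinarith
    rw [this]
    unfold cK
    have e1 : φ (k + 1) + θ - (φ k + θ) = φ (k + 1) - φ k := by ring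
    rw [e1]; ring

/-- **Uniqueness of the KKT star polygon**: two such polygons have the same angles. -/
theorem unique_star (h : StarD N φ T C) (h' : StarD N φ' T' C') (hN : 2 ≤ N) (k : ℕ) :
    φ' (k + 1) - φ' k = φ (k + 1) - φ k := by
  have hpi := Real.pi_pos
  have hmono : StrictMono φ := strictMono_nat_of_lt_succ h.pos
  have hmono' : StrictMono φ' := strictMono_nat_of_lt_succ h'.pos
  -- differences of directions lie in an interval of length less than π
  have hdiff : ∀ i j, i < N → j < N → (φ' j - φ j) - (φ' i - φ i) < π := by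
    intro i j hi hj
    rcases lt_trichotomy i j with hij | hij | hij
    · have a1 := hmono hij
      have a2 : φ' j < φ' (i + N) := hmono' (by omega)
      rw [h'.perφ] at a2
      linarith
    · subst hij; linarith
    · have a1 := hmono' hij
      have a2 : φ i < φ (j + N) := hmono (by omega)
      rw [h.perφ] at a2
      linarith
  have hN0 : 0 < N := by omega
  have hne : (range N).Nonempty := ⟨0, Finset.mem_range.2 hN0⟩
  obtain ⟨a, ha, hmax⟩ := Finset.exists_max_image (range N) (fun k => φ' k - φ k) hne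
  obtain ⟨b, hb, hmin⟩ := Finset.exists_min_image (range N) (fun k => φ' k - φ k) hne
  rw [Finset.mem_range] at ha hb
  set M := φ' a - φ a with hM
  set m := φ' b - φ b with hm
  have hMm : M - m < π := hdiff b a hb ha
  have h2 := h'.rot (-(M + m) / 2)
  have hmod : ∀ k, φ' k - φ k = φ' (k % N) - φ (k % N) := by
    have : ∀ q r, φ' (r + q * N) - φ (r + q * N) = φ' r - φ r := by
      intro q r
      induction q with
      | zero => simp
      | succ q ih =>
        have e2 : r + (q + 1) * N = (r + q * N) + N := by ring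
        rw [e2, h.perφ, h'.perφ]; linarith
    intro k
    have hk : k = k % N + (k / N) * N := by
      have := Nat.mod_add_div k N; rw [mul_comm] at this; omega
    conv_lhs => rw [hk]
    exact this _ _
  have hyb : ∀ k, |yy φ (fun k => φ' k + -(M + m) / 2) k| < π / 4 := by
    intro k
    have h1 := hmax (k % N) (Finset.mem_range.2 (Nat.mod_lt _ hN0))
    have h2 := hmin (k % N) (Finset.mem_range.2 (Nat.mod_lt _ hN0))
    rw [← hmod] at h1 h2
    unfold yy
    rw [abs_lt]
    constructor <;> linarith
  have := unique_core h h2 hN hyb k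
  linarith

end MP97284cU
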